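import Mathlib

set_option autoImplicit false

open Polynomial

namespace Pool.Agent.Results.MP_170294_an.PopovFalse

/-- The interval `Δ = [-1,1]`. -/
abbrev Delta : Set ℝ := Set.Icc (-1 : ℝ) 1

/-- The Hausdorff difference `|f(x) - g(x)|_1` (parameter `α = 1`) on `Δ = [-1,1]`. -/
noncomputable def hdiff (f g : ℝ → ℝ) (x : ℝ) : ℝ :=
  max (⨅ ξ : Delta, max |x - ξ| |f x - g ξ|) (⨅ ξ : Delta, max |x - ξ| |f ξ - g x|)

/-- The Hausdorff distance `r(Δ; f, g)`. -/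
noncomputable def hdist (f g : ℝ → ℝ) : ℝ := ⨆ x : Delta, hdiff f g x

/-- Best Hausdorff approximation `E_n(f)` by real polynomials of degree at most `n`. -/
noncomputable def E (n : ℕ) (f : ℝ → ℝ) : ℝ :=
  ⨅ p : {p : ℝ[X] // p.natDegree ≤ n}, hdist f (fun x => p.1.eval x)

/-- The class `K` of continuous convex functions `f : [-1,1] → [0,1]`. -/
def K : Set (ℝ → ℝ) :=
  {f | ContinuousOn f Delta ∧ ConvexOn ℝ Delta f ∧ ∀ x ∈ Delta, f x ∈ Set.Icc (0 : ℝ) 1}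

instance : Nonempty Delta := ⟨⟨0, by norm_num⟩⟩

lemma bddBelow_aux (F : Delta → ℝ) (h : ∀ ξ, 0 ≤ F ξ) : BddBelow (Set.range F) :=
  ⟨0, by rintro _ ⟨ξ, rfl⟩; exact h ξ⟩

lemma hdiff_le (f g : ℝ → ℝ) (x c : ℝ)
    (h1 : ∃ ξ ∈ Delta, |x - ξ| ≤ c ∧ |f x - g ξ| ≤ c)
    (h2 : ∃ ξ ∈ Delta, |x - ξ| ≤ c ∧ |f ξ - g x| ≤ c) : hdiff f g x ≤ c := by
  unfold hdiff
  apply max_le
  · obtain ⟨ξ, hξ, ha, hb⟩ := h1
    exact ciInf_le_of_le (bddBelow_aux _ (fun ξ => le_max_of_le_left (abs_nonneg _))) ⟨ξ, hξ⟩ (max_le ha hb)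
  · obtain ⟨ξ, hξ, ha, hb⟩ := h2
    exact ciInf_le_of_le (bddBelow_aux _ (fun ξ => le_max_of_le_left (abs_nonneg _))) ⟨ξ, hξ⟩ (max_le ha hb)

lemma hdiff_nonneg (f g : ℝ → ℝ) (x : ℝ) : 0 ≤ hdiff f g x := by
  unfold hdiff
  apply le_max_of_le_left
  exact Real.iInf_nonneg (fun ξ => le_max_of_le_left (abs_nonneg _))

lemma hdist_nonneg (f g : ℝ → ℝ) : 0 ≤ hdist f g :=
  Real.iSup_nonneg (fun x => hdiff_nonneg f g x)

/-- For functions bounded on `Δ` the Hausdorff differences are bounded, so the supremum is genuine. -/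
lemma bddAbove_hdiff (f g : ℝ → ℝ) (hf : ContinuousOn f Delta) (hg : ContinuousOn g Delta) :
    BddAbove (Set.range fun x : Delta => hdiff f g x) := by
  obtain ⟨M, hM⟩ := isCompact_Icc.exists_bound_of_continuousOn (hf.sub hg)
  refine ⟨max M 0, ?_⟩
  rintro _ ⟨x, rfl⟩
  have hx := hM x x.2
  rw [Real.norm_eq_abs] at hx
  apply hdiff_le
  · exact ⟨x, x.2, by simp, hx.trans (le_max_left _ _)⟩
  · exact ⟨x, x.2, by simp, hx.trans (le_max_left _ _)⟩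

/-- If the Hausdorff distance is `< c`, every point of either graph has a `c`-close point on the
other one. -/
lemma exists_of_hdist_lt (f g : ℝ → ℝ) (hf : ContinuousOn f Delta) (hg : ContinuousOn g Delta)
    (c : ℝ) (h : hdist f g < c) (x : ℝ) (hx : x ∈ Delta) :
    (∃ ξ ∈ Delta, |x - ξ| < c ∧ |f x - g ξ| < c) ∧
    (∃ ξ ∈ Delta, |x - ξ| < c ∧ |f ξ - g x| < c) := by
  have h1 : hdiff f g x < c :=
    lt_of_le_of_lt (le_ciSup (bddAbove_hdiff f g hf hg) (⟨x, hx⟩ : Delta)) h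
  unfold hdiff at h1
  obtain ⟨h2, h3⟩ := max_lt_iff.mp h1
  constructor
  · obtain ⟨ξ, hξ⟩ := exists_lt_of_ciInf_lt h2
    exact ⟨ξ, ξ.2, (max_lt_iff.mp hξ).1, (max_lt_iff.mp hξ).2⟩
  · obtain ⟨ξ, hξ⟩ := exists_lt_of_ciInf_lt h3
    exact ⟨ξ, ξ.2, (max_lt_iff.mp hξ).1, (max_lt_iff.mp hξ).2⟩

/-! ### Upper bound for `|x|` -/

lemma abs_upper_nonneg (x : ℝ) (h0 : 0 ≤ x) (h1 : x ≤ 1) :
    (∃ ξ : ℝ, 0 ≤ ξ ∧ ξ ≤ 1 ∧ |x - ξ| ≤ 1 / 12 ∧ |x - (ξ ^ 2 + 1 / 12)| ≤ 1 / 12) ∧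
    (∃ ξ : ℝ, 0 ≤ ξ ∧ ξ ≤ 1 ∧ |x - ξ| ≤ 1 / 12 ∧ |ξ - (x ^ 2 + 1 / 12)| ≤ 1 / 12) := by
  constructor
  · have hs0 := Real.sqrt_nonneg x
    have hs2 : Real.sqrt x ^ 2 = x := Real.sq_sqrt h0
    have hs1 : Real.sqrt x ≤ 1 := Real.sqrt_le_one.mpr h1
    have hxs : x ≤ Real.sqrt x := by nlinarith
    by_cases hc : Real.sqrt x ≤ x + 1 / 12
    · refine ⟨Real.sqrt x, hs0, hs1, ?_, ?_⟩
      · rw [abs_le]; constructor <;> linarith
      · rw [hs2, abs_le]; constructor <;> linarith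
    · push Not at hc
      refine ⟨x + 1 / 12, by linarith, by linarith, ?_, ?_⟩
      · rw [abs_le]; constructor <;> linarith
      · rw [abs_le]
        constructor
        · nlinarith
        · nlinarith [sq_nonneg (x - 5 / 12)]
  · by_cases hc : x ^ 2 ≤ x - 1 / 12
    · refine ⟨x - 1 / 12, by nlinarith, by linarith, ?_, ?_⟩
      · rw [abs_le]; constructor <;> linarith
      · rw [abs_le]
        constructor
        · nlinarith
        · nlinarith [sq_nonneg (x - 1 / 2)]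
    · push Not at hc
      refine ⟨x ^ 2, by positivity, by nlinarith, ?_, ?_⟩
      · rw [abs_le]; constructor <;> nlinarith
      · rw [abs_le]; constructor <;> linarith

lemma hdist_abs_le : hdist (fun x => |x|) (fun x => (X ^ 2 + C (1 / 12) : ℝ[X]).eval x) ≤ 1 / 12 := by
  apply ciSup_le
  rintro ⟨x, hx⟩
  simp only [eval_add, eval_pow, eval_X, eval_C]
  rcases le_total 0 x with h0 | h0
  · obtain ⟨⟨ξ, a1, a2, a3, a4⟩, ⟨η, b1, b2, b3, b4⟩⟩ := abs_upper_nonneg x h0 hx.2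
    apply hdiff_le
    · exact ⟨ξ, ⟨by linarith, a2⟩, a3, by simpa [abs_of_nonneg h0] using a4⟩
    · exact ⟨η, ⟨by linarith, b2⟩, b3, by simpa [abs_of_nonneg b1] using b4⟩
  · obtain ⟨⟨ξ, a1, a2, a3, a4⟩, ⟨η, b1, b2, b3, b4⟩⟩ := abs_upper_nonneg (-x) (by linarith) (by linarith [hx.1])
    apply hdiff_le
    · refine ⟨-ξ, ⟨by linarith, by linarith⟩, ?_, ?_⟩
      · rw [← abs_neg]
        convert a3 using 2
        ring
      · simp only [abs_of_nonpos h0]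
        convert a4 using 3
        ring
    · refine ⟨-η, ⟨by linarith, by linarith⟩, ?_, ?_⟩
      · rw [← abs_neg]
        convert b3 using 2
        ring
      · simp only [abs_neg, abs_of_nonneg b1]
        convert b4 using 3
        ring

lemma E_abs_le (n : ℕ) (hn : 2 ≤ n) : E n (fun x => |x|) ≤ 1 / 12 := by
  unfold E
  have hdeg : (X ^ 2 + C (1 / 12) : ℝ[X]).natDegree ≤ n := by
    rw [natDegree_X_pow_add_C]; exact hn
  refine ciInf_le_of_le ⟨0, ?_⟩ (⟨X ^ 2 + C (1 / 12), hdeg⟩ : {p : ℝ[X] // p.natDegree ≤ n}) hdist_abs_le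
  rintro _ ⟨p, rfl⟩
  exact hdist_nonneg _ _

/-! ### A steep ramp near the end point -/

/-- The ramp which vanishes up to `999/1000` and then climbs to `1` at `x = 1`. -/
noncomputable def ramp (x : ℝ) : ℝ := max 0 (1000 * x - 999)

lemma ramp_mem_K : ramp ∈ K := by
  refine ⟨?_, ?_, ?_⟩
  · unfold ramp
    exact (by fun_prop : Continuous fun x : ℝ => max 0 (1000 * x - 999)).continuousOn
  · unfold ramp
    apply ConvexOn.sup
    · exact convexOn_const 0 (convex_Icc _ _)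
    · refine ⟨convex_Icc _ _, ?_⟩
      intro x _ y _ a b _ _ hab
      simp only [smul_eq_mul]
      nlinarith
  · intro x hx
    unfold ramp
    constructor
    · exact le_max_left _ _
    · apply max_le
      · norm_num
      · linarith [hx.2]

lemma ramp_zero (x : ℝ) (h : x ≤ 999 / 1000) : ramp x = 0 := by
  unfold ramp
  apply max_eq_left
  linarith

lemma ramp_one : ramp 1 = 1 := by
  unfold ramp; norm_num

lemma T7_eval (y : ℝ) : (Chebyshev.T ℝ 7).eval y = 64 * y ^ 7 - 112 * y ^ 5 + 56 * y ^ 3 - 7 * y := by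
  have h2 : Chebyshev.T ℝ 2 = 2 * X ^ 2 - 1 := Chebyshev.T_two ℝ
  have h1 : Chebyshev.T ℝ 1 = X := Chebyshev.T_one ℝ
  have h3 : Chebyshev.T ℝ 3 = 2 * X * Chebyshev.T ℝ 2 - Chebyshev.T ℝ 1 := Chebyshev.T_add_two ℝ 1
  have h4 : Chebyshev.T ℝ 4 = 2 * X * Chebyshev.T ℝ 3 - Chebyshev.T ℝ 2 := Chebyshev.T_add_two ℝ 2
  have h5 : Chebyshev.T ℝ 5 = 2 * X * Chebyshev.T ℝ 4 - Chebyshev.T ℝ 3 := Chebyshev.T_add_two ℝ 3
  have h6 : Chebyshev.T ℝ 6 = 2 * X * Chebyshev.T ℝ 5 - Chebyshev.T ℝ 4 := Chebyshev.T_add_two ℝ 4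
  have h7 : Chebyshev.T ℝ 7 = 2 * X * Chebyshev.T ℝ 6 - Chebyshev.T ℝ 5 := Chebyshev.T_add_two ℝ 5
  rw [h7, h6, h5, h4, h3, h2, h1]
  simp
  ring

lemma ramp_lower (p : ℝ[X]) (hp : p.natDegree ≤ 7) :
    17 / 200 ≤ hdist ramp (fun x => p.eval x) := by
  by_contra hcon
  push Not at hcon
  have hpc : ContinuousOn (fun x => p.eval x) Delta := p.continuous.continuousOn
  have hrc : ContinuousOn ramp Delta := ramp_mem_K.1
  have hex := exists_of_hdist_lt ramp (fun x => p.eval x) hrc hpc _ hcon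
  -- smallness on [-1, 457/500]
  have hsmall : ∀ x ∈ Set.Icc (-1 : ℝ) (457 / 500), |p.eval x| ≤ 17 / 200 := by
    intro x hx
    obtain ⟨-, ξ, hξ, h1, h2⟩ := hex x ⟨hx.1, by linarith [hx.2]⟩
    have h3 := (abs_lt.mp h1).1
    rw [ramp_zero ξ (by linarith [hx.2])] at h2
    rw [zero_sub, abs_neg] at h2
    exact h2.le
  -- large value near 1
  obtain ⟨⟨ξ, hξ, h1, h2⟩, -⟩ := hex 1 (by norm_num)
  rw [ramp_one] at h2
  have h3 := (abs_lt.mp h1).2
  have h4 := (abs_lt.mp h2).2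
  -- rescale
  set q : ℝ[X] := C (200 / 17) * p.comp (C (957 / 1000) * X + C (-43 / 1000)) with hq
  have hqe : ∀ y : ℝ, q.eval y = 200 / 17 * p.eval (957 / 1000 * y - 43 / 1000) := by
    intro y
    rw [hq]
    simp only [eval_mul, eval_C, eval_comp, eval_add, eval_X]
    congr 2
    ring
  have hqdeg : q.degree ≤ ((7 : ℕ) : WithBot ℕ) := by
    apply natDegree_le_iff_degree_le.mp
    rw [hq]
    refine (natDegree_C_mul_le _ _).trans ?_
    refine (natDegree_comp_le).trans ?_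
    have : (C (957 / 1000) * X + C (-43 / 1000) : ℝ[X]).natDegree ≤ 1 := natDegree_linear_le
    nlinarith
  have hqb : ∀ y ∈ Set.Icc (-1 : ℝ) 1, |q.eval y| ≤ 1 := by
    intro y hy
    rw [hqe, abs_mul]
    have := hsmall (957 / 1000 * y - 43 / 1000) ⟨by linarith [hy.1], by linarith [hy.2]⟩
    rw [abs_of_pos (by norm_num : (0 : ℝ) < 200 / 17)]
    linarith
  set y : ℝ := (ξ + 43 / 1000) / (957 / 1000) with hy
  have hy1 : 1 ≤ y := by
    rw [hy, le_div_iff₀ (by norm_num)]; linarith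
  have hy2 : y ≤ 1043 / 957 := by
    rw [hy, div_le_div_iff₀ (by norm_num) (by norm_num)]
    linarith [hξ.2]
  have hT := Chebyshev.eval_iterate_derivative_le_of_forall_abs_le_one (n := 7) (k := 0) hy1 hqdeg hqb
  simp only [Function.iterate_zero, id_eq] at hT
  have hT' : (Chebyshev.T ℝ ((7 : ℕ) : ℤ)).eval y = 64 * y ^ 7 - 112 * y ^ 5 + 56 * y ^ 3 - 7 * y :=
    T7_eval y
  rw [hT', hqe] at hT
  have e1 : 957 / 1000 * y - 43 / 1000 = ξ := by
    rw [hy]; field_simp; ring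
  rw [e1] at hT
  -- bound for the Chebyshev polynomial
  set z : ℝ := y ^ 2 with hz
  have hz1 : 1 ≤ z := by rw [hz]; nlinarith
  have hz2 : z ≤ 119 / 100 := by rw [hz]; nlinarith
  have hz3 : 64 * z ^ 3 - 112 * z ^ 2 + 56 * z - 7 ≤ 9 := by
    nlinarith [mul_nonneg (sub_nonneg.mpr hz1) (sub_nonneg.mpr hz2),
      mul_nonneg (mul_nonneg (sub_nonneg.mpr hz1) (sub_nonneg.mpr hz2)) (sub_nonneg.mpr hz1)]
  have hz4 : 64 * y ^ 7 - 112 * y ^ 5 + 56 * y ^ 3 - 7 * y = y * (64 * z ^ 3 - 112 * z ^ 2 + 56 * z - 7) := by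
    rw [hz]; ring
  rw [hz4] at hT
  nlinarith

/-- **Popov's question has a negative answer**: for `2 ≤ n ≤ 7` some `f ∈ K` satisfies
`E_n(f) > E_n(|x|)`. -/
theorem result : ∀ n : ℕ, 2 ≤ n → n ≤ 7 → ∃ f ∈ K, E n (fun x => |x|) < E n f := by
  intro n h2 h7
  refine ⟨ramp, ramp_mem_K, lt_of_le_of_lt (E_abs_le n h2) (lt_of_lt_of_le (by norm_num : (1 : ℝ) / 12 < 17 / 200) ?_)⟩
  unfold E
  have : Nonempty {p : ℝ[X] // p.natDegree ≤ n} := ⟨⟨0, by simp⟩⟩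
  exact le_ciInf (fun p => ramp_lower p.1 (p.2.trans h7))

end Pool.Agent.Results.MP_170294_an.PopovFalse
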